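import Mathlib
import Pool.Agent.Y580.RF.F2
import Pool.Agent.Helper697.Fold3

/-!
The limit of the cone construction in arbitrary codimension.
-/

open scoped RealInnerProductSpace
open Set Filter Topology
open Pool.Agent.Helper697 (sfold arc arc_norm arc_inner arc_continuous arc_zero arc_ne kap
  kap_atTop cos_lt_one')

namespace Pool.Agent.Y580.RF

variable {V W X : Type*} [NormedAddCommGroup V] [InnerProductSpace ℝ V]
  [NormedAddCommGroup W] [InnerProductSpace ℝ W] [NormedAddCommGroup X] [InnerProductSpace ℝ X]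

lemma Expn.comp {G : W → X} {F : V → W} (hG : Expn G) (hF : Expn F) :
    Expn (fun x => G (F x)) :=
  ⟨fun x y => (hF.1 x y).trans (hG.1 _ _), fun x => by rw [hG.2, hF.2]⟩

lemma FinCover.comp {G : W → X} {F : V → W} (hG : FinCover G univ) (hF : FinCover F univ) :
    FinCover (fun x => G (F x)) univ := by
  obtain ⟨C, h1, h2, h3⟩ := hF
  obtain ⟨D, k1, k2, k3⟩ := hG
  refine ⟨(fun p : Set V × Set W => p.1 ∩ F ⁻¹' p.2) '' (C ×ˢ D), (h1.prod k1).image _, ?_, ?_⟩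
  · rintro _ ⟨⟨S, T⟩, ⟨hS, hT⟩, rfl⟩ x ⟨hx1, hx2⟩ y ⟨hy1, hy2⟩
    rw [k2 T hT _ hx2 _ hy2, h2 S hS x hx1 y hy1]
  · intro x _
    obtain ⟨S, hS, hxS⟩ := h3 (mem_univ x)
    obtain ⟨T, hT, hxT⟩ := k3 (mem_univ (F x))
    exact ⟨_, ⟨(S, T), ⟨hS, hT⟩, rfl⟩, hxS, hxT⟩

lemma lin_expn (T : V →ₗᵢ[ℝ] W) : Expn (T : V → W) :=
  ⟨fun x y => (T.inner_map_map x y).ge, fun x => T.norm_map x⟩

lemma lin_cover (T : V →ₗᵢ[ℝ] W) : FinCover (T : V → W) univ :=
  FinCover.of_iso fun x _ y _ => T.inner_map_map x y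

lemma fold_expn {w : W} (hw : ‖w‖ = 1) : Expn (sfold w) := Pool.Agent.Helper697.sfold_expn hw

lemma fold_cover {w : W} (hw : ‖w‖ = 1) : FinCover (sfold w) univ :=
  Pool.Agent.Helper697.sfold_cover hw

lemma fix_far {F : V → W} (hF : Expn F) {T : V →ₗᵢ[ℝ] W} {a : V} {r : ℝ}
    (hid : ∀ y, ‖y + a‖ < r → F y = T y) {x : V} {s : ℝ} (hs : 0 < s) (hxs : ‖x‖ < r * s) :
    F (x - s • a) = T (x - s • a) := by
  have h1 : x - s • a = s • (s⁻¹ • x - a) := by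
    rw [smul_sub, smul_smul, mul_inv_cancel₀ hs.ne', one_smul]
  have h2 : F (s⁻¹ • x - a) = T (s⁻¹ • x - a) := by
    apply hid
    rw [sub_add_cancel, norm_smul, norm_inv, Real.norm_eq_abs, abs_of_pos hs]
    rw [inv_mul_lt_iff₀ hs]
    linarith
  rw [h1, hF.smul _ hs.le, h2, T.map_smul]

lemma limit_neg {F : V → W} (hF : Expn F) {T : V →ₗᵢ[ℝ] W} {a : V} {w : W} (ha : ‖a‖ = 1)
    (hw : ‖w‖ = 1) (haw : ⟪T a, w⟫ = 0) {r : ℝ} (hr : 0 < r)
    (hid : ∀ y, ‖y + a‖ < r → F y = T y) {x : V} (hx : ⟪T x, w⟫ < 0) :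
    Tendsto (fun τ => Bm F a (arc (T a) w τ) x) (𝓝[>] 0) (𝓝 (T x - (2 * ⟪T x, w⟫) • w)) := by
  have haa : ⟪a, a⟫ = 1 := by rw [real_inner_self_eq_norm_sq, ha]; norm_num
  have hTa : ‖T a‖ = 1 := by rw [T.norm_map, ha]
  set s : ℝ → ℝ := fun τ => ⟪x, a⟫ - kap τ * ⟪T x, w⟫ with hs
  have hsT : Tendsto s (𝓝[>] 0) atTop := by
    have h1 : Tendsto (fun τ => kap τ * (-⟪T x, w⟫)) (𝓝[>] 0) atTop :=
      kap_atTop.atTop_mul_const (by linarith)
    have h2 := tendsto_atTop_add_const_left (𝓝[>] (0:ℝ)) ⟪x, a⟫ h1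
    refine h2.congr fun τ => ?_
    simp only [hs]; ring
  have h1 : ∀ᶠ τ : ℝ in 𝓝[>] 0, τ ∈ Ioo (0:ℝ) 1 := Ioo_mem_nhdsGT one_pos
  have h2 : ∀ᶠ τ : ℝ in 𝓝[>] 0, max 1 ((‖x‖ + 1) / r) ≤ s τ := hsT.eventually_ge_atTop _
  have key : ∀ᶠ τ : ℝ in 𝓝[>] 0, T x + ⟪x, a⟫ • (arc (T a) w τ - T a)
      + (⟪T x, w⟫ * Real.sin τ) • T a
      - (⟪T x, w⟫ * (1 + Real.cos τ)) • w = Bm F a (arc (T a) w τ) x := by
    filter_upwards [h1, h2] with τ hτ hsτ
    have hs1 : 0 < s τ := lt_of_lt_of_le one_pos ((le_max_left _ _).trans hsτ)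
    have hs2 : ‖x‖ < r * s τ := by
      have := (le_max_right _ _).trans hsτ
      rw [div_le_iff₀ hr] at this
      linarith
    have hfix := fix_far hF hid hs1 hs2
    have hc : Real.cos τ < 1 := cos_lt_one' hτ.1 (by linarith [Real.pi_gt_three, hτ.2])
    have hc' : 1 - Real.cos τ ≠ 0 := by linarith
    have hk : kap τ * (1 - Real.cos τ) = Real.sin τ := by rw [kap]; field_simp
    have hk2 : kap τ * Real.sin τ = 1 + Real.cos τ := by
      have h3 : Real.sin τ ^ 2 = (1 - Real.cos τ) * (1 + Real.cos τ) := by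
        rw [Real.sin_sq]; ring
      have h4 : kap τ * Real.sin τ = Real.sin τ ^ 2 / (1 - Real.cos τ) := by
        rw [kap]; ring
      rw [h4, h3]; field_simp
    have hsol : Sol F a (arc (T a) w τ) x (s τ) := by
      have e : ⟪x - s τ • a, a⟫ = ⟪F (x - s τ • a), arc (T a) w τ⟫ := by
        rw [hfix, arc, inner_add_right, real_inner_smul_right, real_inner_smul_right,
          T.map_sub, T.map_smul, inner_sub_left, inner_sub_left, inner_sub_left,
          real_inner_smul_left, real_inner_smul_left, real_inner_smul_left,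
          T.inner_map_map, T.inner_map_map, haa, haw]
        simp only [hs]
        linear_combination ⟪T x, w⟫ * hk
      exact ⟨hs1.le, e.le, Or.inr e⟩
    rw [Bm_eq hF ha (arc_norm hTa hw haw τ) hsol, val, hfix]
    have e1 : ⟪T x, w⟫ * Real.sin τ = ⟪T x, w⟫ * (kap τ * (1 - Real.cos τ)) := by rw [hk]
    have e2 : ⟪T x, w⟫ * (1 + Real.cos τ) = ⟪T x, w⟫ * (kap τ * Real.sin τ) := by rw [hk2]
    rw [e1, e2, arc, T.map_sub, T.map_smul]
    simp only [hs]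
    module
  refine Tendsto.congr' key ?_
  have hcont : Continuous fun τ : ℝ => T x + ⟪x, a⟫ • (arc (T a) w τ - T a) +
      (⟪T x, w⟫ * Real.sin τ) • T a - (⟪T x, w⟫ * (1 + Real.cos τ)) • w := by
    have := arc_continuous (T a) w
    fun_prop
  have h3 := hcont.tendsto 0
  have h4 : T x + ⟪x, a⟫ • (arc (T a) w 0 - T a) + (⟪T x, w⟫ * Real.sin 0) • T a
      - (⟪T x, w⟫ * (1 + Real.cos 0)) • w = T x - (2 * ⟪T x, w⟫) • w := by
    rw [arc_zero, Real.sin_zero, Real.cos_zero]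
    module
  rw [h4] at h3
  exact h3.mono_left nhdsWithin_le_nhds

/-- points near `-a` on the nonnegative side are fixed -/
lemma limit_fix {F : V → W} (hF : Expn F) {T : V →ₗᵢ[ℝ] W} {a : V} {w : W} (ha : ‖a‖ = 1)
    (hw : ‖w‖ = 1) (haw : ⟪T a, w⟫ = 0) {y : V} (hy : F y = T y) (hya : ⟪y, a⟫ ≤ 0)
    (hyw : 0 ≤ ⟪T y, w⟫) :
    ∀ᶠ τ : ℝ in 𝓝[>] 0, Bm F a (arc (T a) w τ) y = T y := by
  have h1 : ∀ᶠ τ : ℝ in 𝓝[>] 0, τ ∈ Ioo (0:ℝ) 1 := Ioo_mem_nhdsGT one_pos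
  have hTa : ‖T a‖ = 1 := by rw [T.norm_map, ha]
  filter_upwards [h1] with τ hτ
  have hpi := Real.pi_gt_three
  have hsin : 0 ≤ Real.sin τ :=
    Real.sin_nonneg_of_nonneg_of_le_pi hτ.1.le (by linarith [hτ.2])
  have hsol : Sol F a (arc (T a) w τ) y 0 := by
    refine ⟨le_rfl, ?_, Or.inl rfl⟩
    rw [zero_smul, sub_zero, hy, arc, inner_add_right, real_inner_smul_right,
      real_inner_smul_right, T.inner_map_map]
    have h2 := Real.cos_le_one τ
    have h3 := mul_nonneg hsin hyw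
    nlinarith
  rw [Bm_eq hF ha (arc_norm hTa hw haw τ) hsol, val, zero_smul, sub_zero, hy, zero_smul,
    add_zero]

/-- The limit of the construction is the fold along `w`. -/
lemma limit_all {F : V → W} (hF : Expn F) {T : V →ₗᵢ[ℝ] W} {a : V} {w : W} (ha : ‖a‖ = 1)
    (hw : ‖w‖ = 1) (haw : ⟪T a, w⟫ = 0) {r : ℝ} (hr : 0 < r)
    (hid : ∀ y, ‖y + a‖ < r → F y = T y) (x : V) :
    Tendsto (fun τ => Bm F a (arc (T a) w τ) x) (𝓝[>] 0) (𝓝 (sfold w (T x))) := by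
  have haa : ⟪a, a⟫ = 1 := by rw [real_inner_self_eq_norm_sq, ha]; norm_num
  have hTa : ‖T a‖ = 1 := by rw [T.norm_map, ha]
  have hTaa : ⟪T a, T a⟫ = 1 := by rw [real_inner_self_eq_norm_sq, hTa]; norm_num
  have hww : ⟪w, w⟫ = 1 := by rw [real_inner_self_eq_norm_sq, hw]; norm_num
  have hwa : ⟪w, T a⟫ = 0 := by rw [real_inner_comm]; exact haw
  have hFa : F (-a) = -(T a) := by
    have := hid (-a) (by simpa using hr)
    rw [this, T.map_neg]
  -- the far point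
  set s : ℝ := max (|⟪x, a⟫| + 1) ((‖x‖ + 1) / r) with hs
  have hs1 : |⟪x, a⟫| + 1 ≤ s := le_max_left _ _
  have hs0 : 0 < s := by linarith [abs_nonneg ⟪x, a⟫]
  have hs2 : ‖x‖ < r * s := by
    have := le_max_right (|⟪x, a⟫| + 1) ((‖x‖ + 1) / r)
    rw [← hs, div_le_iff₀ hr] at this
    linarith
  set y : V := x - s • a with hy
  have hFy : F y = T y := fix_far hF hid hs0 hs2
  have hya : ⟪y, a⟫ = ⟪x, a⟫ - s := by
    rw [hy, inner_sub_left, real_inner_smul_left, haa, mul_one]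
  have hya0 : ⟪y, a⟫ ≤ 0 := by
    rw [hya]; linarith [le_abs_self ⟪x, a⟫]
  have hyw : ⟪T y, w⟫ = ⟪T x, w⟫ := by
    rw [hy, T.map_sub, T.map_smul, inner_sub_left, real_inner_smul_left, haw]; ring
  have hlimy : Tendsto (fun τ => Bm F a (arc (T a) w τ) y) (𝓝[>] 0) (𝓝 (sfold w (T y))) := by
    by_cases h : 0 ≤ ⟪T y, w⟫
    · have e : sfold w (T y) = T y := by rw [sfold, if_pos h]
      rw [e]
      refine Tendsto.congr' ?_ tendsto_const_nhds
      filter_upwards [limit_fix hF ha hw haw hFy hya0 h] with τ hτ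
      exact hτ.symm
    · have e : sfold w (T y) = T y - (2 * ⟪T y, w⟫) • w := by rw [sfold, if_neg h]
      rw [e]
      exact limit_neg hF ha hw haw hr hid (not_le.mp h)
  have hshift : sfold w (T x) = sfold w (T y) + s • T a := by
    have e : T x = T y + s • T a := by rw [hy, T.map_sub, T.map_smul]; abel
    unfold sfold
    rw [hyw]
    split_ifs with h
    · exact e
    · rw [e]; abel
  -- comparison of the values at `x` and at `y`
  set G : ℝ → V → W := fun τ => Bm F a (arc (T a) w τ) with hG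
  have hev : ∀ᶠ τ : ℝ in 𝓝[>] 0, τ ∈ Ioo (0:ℝ) 1 := Ioo_mem_nhdsGT one_pos
  have hbound : ∀ᶠ τ : ℝ in 𝓝[>] 0, ‖G τ x - (G τ y + s • T a)‖ ^ 2 ≤
      2 * s * (‖x‖ * ‖arc (T a) w τ - T a‖) := by
    filter_upwards [hev] with τ hτ
    have hpi := Real.pi_gt_three
    have hb : ‖arc (T a) w τ‖ = 1 := arc_norm hTa hw haw τ
    have hne : arc (T a) w τ ≠ T a := arc_ne hTa haw hτ.1 (by linarith [hτ.2])
    have hE : Expn (G τ) := Bm_expn hF ha hb hFa hne
    have h1 := hE.1 x a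
    have h2 := hE.1 y (-a)
    have e1 : G τ a = arc (T a) w τ := Bm_a hF ha hb
    have e2 : G τ (-a) = -(T a) := Bm_neg hF ha hb hFa
    rw [e1] at h1
    rw [e2, inner_neg_right, inner_neg_right, hya] at h2
    have h3 := hE.lip x y
    have h4 : ‖x - y‖ = s := by
      rw [hy, sub_sub_cancel, norm_smul, ha, mul_one, Real.norm_eq_abs, abs_of_pos hs0]
    rw [h4] at h3
    have h5 : ⟪G τ x, arc (T a) w τ⟫ - ⟪G τ x, T a⟫ ≤ ‖x‖ * ‖arc (T a) w τ - T a‖ := by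
      rw [← inner_sub_right]
      have := real_inner_le_norm (G τ x) (arc (T a) w τ - T a)
      rwa [hE.2] at this
    have h6 : G τ x - (G τ y + s • T a) = (G τ x - G τ y) - s • T a := by abel
    rw [h6, @norm_sub_sq_real, real_inner_smul_right, inner_sub_left, norm_smul, hTa, mul_one,
      Real.norm_eq_abs, sq_abs]
    have h7 : ‖G τ x - G τ y‖ ^ 2 ≤ s ^ 2 := by
      have := norm_nonneg (G τ x - G τ y)
      exact pow_le_pow_left₀ this h3 2
    nlinarith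
  have hz : Tendsto (fun τ => 2 * s * (‖x‖ * ‖arc (T a) w τ - T a‖)) (𝓝[>] 0) (𝓝 0) := by
    have hc : Continuous fun τ : ℝ => 2 * s * (‖x‖ * ‖arc (T a) w τ - T a‖) := by
      have := arc_continuous (T a) w
      fun_prop
    have h1 := hc.tendsto 0
    simp only [arc_zero, sub_self, norm_zero, mul_zero] at h1
    exact h1.mono_left nhdsWithin_le_nhds
  have hz2 : Tendsto (fun τ => ‖G τ x - (G τ y + s • T a)‖) (𝓝[>] 0) (𝓝 0) := by
    have h1 : Tendsto (fun τ => ‖G τ x - (G τ y + s • T a)‖ ^ 2) (𝓝[>] 0) (𝓝 0) :=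
      tendsto_of_tendsto_of_tendsto_of_le_of_le' tendsto_const_nhds hz
        (Eventually.of_forall fun τ => sq_nonneg _) hbound
    have h2 := h1.sqrt
    rw [Real.sqrt_zero] at h2
    refine h2.congr fun τ => ?_
    rw [Real.sqrt_sq (norm_nonneg _)]
  have hz3 : Tendsto (fun τ => G τ x - (G τ y + s • T a)) (𝓝[>] 0) (𝓝 0) :=
    tendsto_zero_iff_norm_tendsto_zero.mpr hz2
  have h8 : Tendsto (fun τ => G τ y + s • T a) (𝓝[>] 0) (𝓝 (sfold w (T y) + s • T a)) :=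
    hlimy.add tendsto_const_nhds
  have h9 := hz3.add h8
  rw [zero_add, ← hshift] at h9
  refine h9.congr fun τ => ?_
  simp only [hG]
  abel

/-- continuity in the parameter away from `0` -/
lemma cont_pos {F : V → W} (hF : Expn F) {a : V} {a' w : W} (ha : ‖a‖ = 1)
    (hw : ‖w‖ = 1) (haw : ⟪a', w⟫ = 0) (hFa : F (-a) = -a') (x : V) {τ₁ : ℝ} (h0 : 0 < τ₁) :
    Tendsto (fun τ => Bm F a (arc a' w τ) x) (𝓝[Iic Real.pi] τ₁)
      (𝓝 (Bm F a (arc a' w τ₁) x)) := by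
  have ha' : ‖a'‖ = 1 := norm_of_neg hF ha hFa
  rw [tendsto_iff_ultrafilter]
  intro 𝒰 h𝒰
  have hev : ∀ᶠ τ in (𝒰 : Filter ℝ), τ ∈ Icc (τ₁ / 2) Real.pi := by
    apply h𝒰
    have h1 : ∀ᶠ τ in 𝓝[Iic Real.pi] τ₁, τ ∈ Ioi (τ₁ / 2) :=
      mem_nhdsWithin_of_mem_nhds (Ioi_mem_nhds (by linarith))
    filter_upwards [h1, self_mem_nhdsWithin] with τ h1 h2
    exact ⟨le_of_lt h1, h2⟩
  have hτ₁ : Tendsto (fun τ : ℝ => τ) 𝒰 (𝓝 τ₁) :=
    tendsto_id.mono_left (h𝒰.trans nhdsWithin_le_nhds)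
  set S := 2 * ‖x‖ / (1 - Real.cos (τ₁ / 2)) with hS
  have hsol : ∀ τ ∈ Icc (τ₁ / 2) Real.pi, ∃ s, Sol F a (arc a' w τ) x s := fun τ hτ =>
    exists_sol hF x ha (arc_norm ha' hw haw τ) hFa (arc_ne ha' haw (by linarith [hτ.1]) hτ.2)
  choose! s hs using hsol
  have hbd : ∀ᶠ τ in (𝒰 : Filter ℝ), s τ ∈ Icc 0 S := by
    filter_upwards [hev] with τ hτ
    refine ⟨(hs τ hτ).1, ?_⟩
    have h1 := (hs τ hτ).bound hF ha (arc_norm ha' hw haw τ) hFa
      (arc_ne ha' haw (by linarith [hτ.1]) hτ.2)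
    rw [arc_inner ha' haw] at h1
    refine h1.trans ?_
    have h2 : Real.cos τ ≤ Real.cos (τ₁ / 2) :=
      Real.cos_le_cos_of_nonneg_of_le_pi (by linarith) hτ.2 hτ.1
    have h3 : Real.cos (τ₁ / 2) < 1 := cos_lt_one' (by linarith) (hτ.1.trans hτ.2)
    rw [hS]
    apply div_le_div_of_nonneg_left (by positivity) (by linarith) (by linarith)
  obtain ⟨s0, hs0, hs0t⟩ := (isCompact_Icc (a := (0:ℝ)) (b := S)).ultrafilter_le_nhds'
    (𝒰.map s) hbd
  have hst : Tendsto s 𝒰 (𝓝 s0) := hs0t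
  have hFc := hF.continuous
  have harc : Tendsto (fun τ => arc a' w τ) 𝒰 (𝓝 (arc a' w τ₁)) :=
    ((arc_continuous a' w).tendsto τ₁).comp hτ₁
  have hy : Tendsto (fun τ => x - s τ • a) 𝒰 (𝓝 (x - s0 • a)) :=
    tendsto_const_nhds.sub (hst.smul tendsto_const_nhds)
  have hFy : Tendsto (fun τ => F (x - s τ • a)) 𝒰 (𝓝 (F (x - s0 • a))) :=
    (hFc.tendsto _).comp hy
  have hsol0 : Sol F a (arc a' w τ₁) x s0 := by
    refine ⟨hs0.1, ?_, ?_⟩
    · refine le_of_tendsto_of_tendsto (hy.inner tendsto_const_nhds) (hFy.inner harc) ?_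
      filter_upwards [hev] with τ hτ
      exact (hs τ hτ).2.1
    · have h1 : Tendsto (fun τ => s τ * (⟪F (x - s τ • a), arc a' w τ⟫ - ⟪x - s τ • a, a⟫)) 𝒰
          (𝓝 (s0 * (⟪F (x - s0 • a), arc a' w τ₁⟫ - ⟪x - s0 • a, a⟫))) :=
        hst.mul ((hFy.inner harc).sub (hy.inner tendsto_const_nhds))
      have h2 : Tendsto (fun τ => s τ * (⟪F (x - s τ • a), arc a' w τ⟫ - ⟪x - s τ • a, a⟫)) 𝒰
          (𝓝 0) := by
        refine Tendsto.congr' ?_ tendsto_const_nhds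
        filter_upwards [hev] with τ hτ
        exact (hs τ hτ).compl.symm
      have h3 := tendsto_nhds_unique h1 h2
      rcases mul_eq_zero.mp h3 with h | h
      · exact Or.inl h
      · exact Or.inr (by linarith)
  rw [Bm_eq hF ha (arc_norm ha' hw haw τ₁) hsol0]
  have hval : Tendsto (fun τ => val F a (arc a' w τ) x (s τ)) 𝒰
      (𝓝 (val F a (arc a' w τ₁) x s0)) := hFy.add (hst.smul harc)
  refine Tendsto.congr' ?_ hval
  filter_upwards [hev] with τ hτ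
  rw [Bm_eq hF ha (arc_norm ha' hw haw τ) (hs τ hτ)]

end Pool.Agent.Y580.RF
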