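import Mathlib
import Pool.Agent.Y580.RF.F4

/-!
Homotopies of homogeneous foldings between Euclidean spaces.
-/

open scoped RealInnerProductSpace
open Set Filter Topology
open Pool.Agent.Helper697 (sfold arc arc_norm arc_inner arc_continuous arc_zero arc_ne
  exists_perp polar)

namespace Pool.Agent.Y580.RF

variable {V W X : Type*} [NormedAddCommGroup V] [InnerProductSpace ℝ V]
  [NormedAddCommGroup W] [InnerProductSpace ℝ W] [NormedAddCommGroup X] [InnerProductSpace ℝ X]

/-- The maps `F` and `G` are homotopic through homogeneous foldings with the property `Q`. -/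
def Hom (Q : (V → W) → Prop) (F G : V → W) : Prop :=
  ∃ K : ℝ → V → W, K 0 = F ∧ K 1 = G ∧
    (∀ t ∈ Icc (0:ℝ) 1, Expn (K t) ∧ FinCover (K t) univ ∧ Q (K t)) ∧
    ∀ x, ContinuousOn (fun t => K t x) (Icc 0 1)

/-- non-trivial -/
def QN (F : V → W) : Prop := ∃ x y, ⟪F x, F y⟫ ≠ ⟪x, y⟫

/-- trivial -/
def QT (F : V → W) : Prop := ∀ x y, ⟪F x, F y⟫ = ⟪x, y⟫

/-- no condition -/
def QA (_ : V → W) : Prop := True

lemma Hom.mono {Q Q' : (V → W) → Prop} (hQ : ∀ F, Q F → Q' F) {F G : V → W} (h : Hom Q F G) :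
    Hom Q' F G := by
  obtain ⟨K, h0, h1, h2, h3⟩ := h
  exact ⟨K, h0, h1, fun t ht => ⟨(h2 t ht).1, (h2 t ht).2.1, hQ _ (h2 t ht).2.2⟩, h3⟩

lemma Hom.symm {Q : (V → W) → Prop} {F G : V → W} (h : Hom Q F G) : Hom Q G F := by
  obtain ⟨K, h0, h1, h2, h3⟩ := h
  refine ⟨fun t => K (1 - t), ?_, ?_, ?_, ?_⟩
  · simpa using h1
  · simpa using h0
  · intro t ht
    exact h2 (1 - t) ⟨by linarith [ht.2], by linarith [ht.1]⟩
  · intro x
    exact (h3 x).comp (f := fun t : ℝ => 1 - t) (by fun_prop)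
      (fun t ht => ⟨by linarith [ht.2], by linarith [ht.1]⟩)

lemma Hom.trans {Q : (V → W) → Prop} {F G H : V → W} (h : Hom Q F G) (h' : Hom Q G H) :
    Hom Q F H := by
  obtain ⟨K, h0, h1, h2, h3⟩ := h
  obtain ⟨L, k0, k1, k2, k3⟩ := h'
  refine ⟨fun t => if t ≤ 1 / 2 then K (2 * t) else L (2 * t - 1), ?_, ?_, ?_, ?_⟩
  · simp [h0]
  · have : ¬ (1 : ℝ) ≤ 1 / 2 := by norm_num
    simp only [this, if_false]
    norm_num
    exact k1
  · intro t ht
    dsimp only
    split_ifs with h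
    · exact h2 (2 * t) ⟨by linarith [ht.1], by linarith⟩
    · push Not at h
      exact k2 (2 * t - 1) ⟨by linarith, by linarith [ht.2]⟩
  · intro x
    have e : (fun t : ℝ => (if t ≤ 1 / 2 then K (2 * t) else L (2 * t - 1)) x) =
        fun t : ℝ => if t ≤ 1 / 2 then K (2 * t) x else L (2 * t - 1) x := by
      funext t
      split_ifs <;> rfl
    rw [e]
    apply ContinuousOn.if
    · rintro a ⟨ha, ha'⟩
      have hfr : frontier {a : ℝ | a ≤ 1 / 2} ⊆ {1 / 2} := by
        have := frontier_Iic (a := (1 / 2 : ℝ))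
        change frontier (Iic (1 / 2 : ℝ)) ⊆ _
        rw [this]
      have ha2 : a = 1 / 2 := hfr ha'
      subst ha2
      norm_num
      rw [h1, k0]
    · have : ContinuousOn (fun t => K (2 * t) x) (Icc 0 1 ∩ {a | a ≤ 1 / 2}) := by
        refine (h3 x).comp (f := fun t : ℝ => 2 * t) (by fun_prop) ?_
        rintro t ⟨ht, ht'⟩
        rw [mem_ofPred_eq] at ht'
        exact ⟨by linarith [ht.1], by linarith⟩
      refine this.mono ?_
      rintro t ⟨ht, ht'⟩
      refine ⟨ht, ?_⟩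
      have : closure {a : ℝ | a ≤ 1 / 2} = {a : ℝ | a ≤ 1 / 2} := isClosed_Iic.closure_eq
      rwa [this] at ht'
    · have : ContinuousOn (fun t => L (2 * t - 1) x) (Icc 0 1 ∩ {a | 1 / 2 ≤ a}) := by
        refine (k3 x).comp (f := fun t : ℝ => 2 * t - 1) (by fun_prop) ?_
        rintro t ⟨ht, ht'⟩
        rw [mem_ofPred_eq] at ht'
        exact ⟨by linarith, by linarith [ht.2]⟩
      refine this.mono ?_
      rintro t ⟨ht, ht'⟩
      refine ⟨ht, ?_⟩
      have h5 : {a : ℝ | ¬ a ≤ 1 / 2} ⊆ {a : ℝ | 1 / 2 ≤ a} := fun a ha => by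
        rw [mem_ofPred_eq] at ha ⊢
        linarith [not_le.mp ha]
      have h6 : closure {a : ℝ | ¬ a ≤ 1 / 2} ⊆ {a : ℝ | 1 / 2 ≤ a} :=
        closure_minimal h5 isClosed_Ici
      exact h6 ht'

/-- The reflection in the hyperplane orthogonal to the unit vector `u`. -/
def rf (u x : W) : W := x - (2 * ⟪x, u⟫) • u

lemma rf_inner {u : W} (hu : ‖u‖ = 1) (x y : W) : ⟪rf u x, rf u y⟫ = ⟪x, y⟫ := by
  have huu : ⟪u, u⟫ = 1 := by rw [real_inner_self_eq_norm_sq, hu]; norm_num
  unfold rf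
  rw [inner_sub_left, inner_sub_right, inner_sub_right, real_inner_smul_right,
    real_inner_smul_left, real_inner_smul_left, real_inner_smul_right, huu, real_inner_comm y u]
  ring

lemma rf_norm {u : W} (hu : ‖u‖ = 1) (x : W) : ‖rf u x‖ = ‖x‖ := by
  have h := rf_inner hu x x
  rw [real_inner_self_eq_norm_sq, real_inner_self_eq_norm_sq] at h
  exact (sq_eq_sq₀ (norm_nonneg _) (norm_nonneg _)).mp h

lemma rf_rf {u : W} (hu : ‖u‖ = 1) (x : W) : rf u (rf u x) = x := by
  have huu : ⟪u, u⟫ = 1 := by rw [real_inner_self_eq_norm_sq, hu]; norm_num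
  unfold rf
  rw [inner_sub_left, real_inner_smul_left, huu]
  module

lemma rf_expn {u : W} (hu : ‖u‖ = 1) : Expn (rf u) :=
  ⟨fun x y => (rf_inner hu x y).ge, rf_norm hu⟩

lemma rf_cover {u : W} (hu : ‖u‖ = 1) : FinCover (rf u) univ :=
  FinCover.of_iso fun x _ y _ => rf_inner hu x y

lemma rf_lin (A : V →ₗᵢ[ℝ] W) (v x : V) : rf (A v) (A x) = A (rf v x) := by
  unfold rf
  rw [A.inner_map_map, A.map_sub, A.map_smul]

lemma fold_lin (A : V →ₗᵢ[ℝ] W) (v x : V) : sfold (A v) (A x) = A (sfold v x) := by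
  unfold sfold
  rw [A.inner_map_map]
  split_ifs
  · rfl
  · rw [A.map_sub, A.map_smul]

lemma rf_fold {v : V} (hv : ‖v‖ = 1) (x : V) : rf v (sfold v x) = sfold (-v) x := by
  rcases lt_trichotomy ⟪x, v⟫ 0 with h | h | h
  · have h1 : sfold v x = rf v x := by rw [sfold, if_neg (not_le.mpr h), rf]
    have h2 : sfold (-v) x = x := by
      rw [sfold, if_pos]
      rw [inner_neg_right]; linarith
    rw [h1, h2, rf_rf hv]
  · have h1 : sfold v x = x := by rw [sfold, if_pos h.ge]
    have h2 : sfold (-v) x = x := by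
      rw [sfold, if_pos]
      rw [inner_neg_right]; linarith
    rw [h1, h2, rf, h]
    simp
  · have h1 : sfold v x = x := by rw [sfold, if_pos h.le]
    have h2 : sfold (-v) x = x - (2 * ⟪x, -v⟫) • (-v) := by
      rw [sfold, if_neg]
      rw [inner_neg_right]; linarith
    rw [h1, h2, rf, inner_neg_right]
    module

lemma sfold_formula (v x : V) : sfold v x = x + (|⟪x, v⟫| - ⟪x, v⟫) • v := by
  unfold sfold
  split_ifs with h
  · rw [abs_of_nonneg h]; simp
  · rw [abs_of_neg (not_le.mp h)]; module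

/-- Two orthonormal vectors exist. -/
def Pair (W : Type*) [NormedAddCommGroup W] [InnerProductSpace ℝ W] : Prop :=
  ∃ p v : W, ‖p‖ = 1 ∧ ‖v‖ = 1 ∧ ⟪p, v⟫ = 0

lemma unit_path (hW : Pair W) {u v : W} (hu : ‖u‖ = 1) (hv : ‖v‖ = 1) :
    ∃ γ : ℝ → W, Continuous γ ∧ γ 0 = u ∧ γ 1 = v ∧ ∀ t, ‖γ t‖ = 1 := by
  obtain ⟨p, q, hp, hq, hpq⟩ := hW
  obtain ⟨u', hu', huu', θ, -, -, hθ⟩ := polar hp hq hpq hu hv
  refine ⟨fun t => arc u u' (t * θ), ?_, ?_, ?_, ?_⟩
  · exact (arc_continuous u u').comp (by fun_prop)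
  · simp [arc_zero]
  · dsimp only
    rw [one_mul, hθ]; rfl
  · intro t
    exact arc_norm hu hu' huu' _

lemma qn_fold (A : V →ₗᵢ[ℝ] W) {v : V} (hv : ‖v‖ = 1) : QN (fun x => A (sfold v x)) := by
  have hvv : ⟪v, v⟫ = 1 := by rw [real_inner_self_eq_norm_sq, hv]; norm_num
  refine ⟨v, -v, ?_⟩
  have h1 : sfold v v = v := by rw [sfold, if_pos]; rw [hvv]; norm_num
  have h2 : sfold v (-v) = v := by
    rw [sfold, if_neg]
    · rw [inner_neg_left, hvv]; module
    · rw [inner_neg_left, hvv]; norm_num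
  simp only [h1, h2]
  rw [A.inner_map_map, inner_neg_right, hvv]
  norm_num

lemma qn_left {F : V → W} (hF : QN F) {G : W → X} (hG : ∀ x y, ⟪G x, G y⟫ = ⟪x, y⟫) :
    QN (fun x => G (F x)) := by
  obtain ⟨x, y, h⟩ := hF
  exact ⟨x, y, by rw [hG]; exact h⟩

lemma hom_fold_path (hV : Pair V) (A : V →ₗᵢ[ℝ] W) {v v' : V} (hv : ‖v‖ = 1) (hv' : ‖v'‖ = 1) :
    Hom QN (fun x => A (sfold v x)) (fun x => A (sfold v' x)) := by
  obtain ⟨γ, hγ, h0, h1, hn⟩ := unit_path hV hv hv'
  refine ⟨fun t x => A (sfold (γ t) x), by dsimp only; rw [h0], by dsimp only; rw [h1], ?_, ?_⟩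
  · intro t _
    exact ⟨(lin_expn A).comp (fold_expn (hn t)), (lin_cover A).comp (fold_cover (hn t)),
      qn_fold A (hn t)⟩
  · intro x
    apply Continuous.continuousOn
    apply A.continuous.comp
    simp only [sfold_formula]
    fun_prop

lemma hom_rf_fold (hV : Pair V) (hW : Pair W) (A : V →ₗᵢ[ℝ] W) {u : W} (hu : ‖u‖ = 1) {v : V}
    (hv : ‖v‖ = 1) :
    Hom QN (fun x => rf u (A (sfold v x))) (fun x => A (sfold v x)) := by
  have hAv : ‖A v‖ = 1 := by rw [A.norm_map, hv]
  obtain ⟨γ, hγ, h0, h1, hn⟩ := unit_path hW hu hAv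
  have s1 : Hom QN (fun x => rf u (A (sfold v x))) (fun x => rf (A v) (A (sfold v x))) := by
    refine ⟨fun t x => rf (γ t) (A (sfold v x)), by dsimp only; rw [h0], by dsimp only; rw [h1], ?_, ?_⟩
    · intro t _
      exact ⟨(rf_expn (hn t)).comp ((lin_expn A).comp (fold_expn hv)),
        (rf_cover (hn t)).comp ((lin_cover A).comp (fold_cover hv)),
        qn_left (qn_fold A hv) (rf_inner (hn t))⟩
    · intro x
      apply Continuous.continuousOn
      unfold rf
      fun_prop
  have e : (fun x => rf (A v) (A (sfold v x))) = fun x => A (sfold (-v) x) := by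
    funext x
    rw [rf_lin, rf_fold hv]
  rw [e] at s1
  exact s1.trans (hom_fold_path hV A (by rw [norm_neg, hv]) hv)

/-- a reflection of Mathlib is the identity or one of our reflections -/
lemma refl_cases (v : W) : (∀ x, (ℝ ∙ v)ᗮ.reflection x = x) ∨
    ∃ u : W, ‖u‖ = 1 ∧ ∀ x, (ℝ ∙ v)ᗮ.reflection x = rf u x := by
  by_cases hv : v = 0
  · left
    intro x
    rw [Submodule.reflection_eq_self_iff, hv]
    simp
  · right
    have hn : ‖v‖ ≠ 0 := norm_ne_zero_iff.mpr hv
    refine ⟨‖v‖⁻¹ • v, ?_, ?_⟩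
    · rw [norm_smul, norm_inv, norm_norm, inv_mul_cancel₀ hn]
    · intro x
      rw [Submodule.reflection_orthogonal_apply, Submodule.reflection_singleton_apply, rf,
        real_inner_smul_right, smul_smul, ← Nat.cast_smul_eq_nsmul ℝ, smul_smul,
        real_inner_comm x v]
      simp only [RCLike.ofReal_real_eq_id, id_eq]
      rw [neg_sub]
      congr 2
      push_cast
      field_simp

lemma hom_iso_fold (hV : Pair V) (hW : Pair W) (A : V →ₗᵢ[ℝ] W) {v : V} (hv : ‖v‖ = 1)
    (l : List W) :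
    Hom QN (fun x => (l.map fun v => (ℝ ∙ v)ᗮ.reflection).prod (A (sfold v x)))
      (fun x => A (sfold v x)) := by
  induction l with
  | nil =>
    simp only [List.map_nil, List.prod_nil]
    exact hom_fold_path hV A hv hv
  | cons w l ih =>
    refine Hom.trans ?_ ih
    simp only [List.map_cons, List.prod_cons]
    have e : ∀ x : V, ((ℝ ∙ w)ᗮ.reflection * (l.map fun v => (ℝ ∙ v)ᗮ.reflection).prod)
        (A (sfold v x)) = (ℝ ∙ w)ᗮ.reflection
          (((l.map fun v => (ℝ ∙ v)ᗮ.reflection).prod.toLinearIsometry.comp A) (sfold v x)) :=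
      fun x => rfl
    simp only [e]
    rcases refl_cases w with h | ⟨u, hu, h⟩
    · simp only [h]
      exact hom_fold_path hV ((l.map fun v => (ℝ ∙ v)ᗮ.reflection).prod.toLinearIsometry.comp A)
        hv hv
    · simp only [h]
      exact hom_rf_fold hV hW
        ((l.map fun v => (ℝ ∙ v)ᗮ.reflection).prod.toLinearIsometry.comp A) hu hv

/-- linear isometric embeddings differ by an isometry of the target -/
lemma exists_ext [FiniteDimensional ℝ W] (A B : V →ₗᵢ[ℝ] W) :
    ∃ S : W ≃ₗᵢ[ℝ] W, ∀ x, B x = S (A x) := by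
  let e := A.equivRange
  let L : (LinearMap.range A.toLinearMap) →ₗᵢ[ℝ] W := B.comp e.symm.toLinearIsometry
  refine ⟨L.extend.toLinearIsometryEquiv rfl, ?_⟩
  intro x
  have h1 : L.extend (e x : W) = L (e x) := L.extend_apply (e x)
  have h2 : (e x : W) = A x := rfl
  rw [LinearIsometry.toLinearIsometryEquiv_apply, ← h2, h1]
  change B x = B (e.symm (e x))
  rw [LinearIsometryEquiv.symm_apply_apply]

lemma hom_std [FiniteDimensional ℝ W] (hV : Pair V) (hW : Pair W) (A B : V →ₗᵢ[ℝ] W) {v v' : V}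
    (hv : ‖v‖ = 1) (hv' : ‖v'‖ = 1) :
    Hom QN (fun x => A (sfold v x)) (fun x => B (sfold v' x)) := by
  obtain ⟨S, hS⟩ := exists_ext A B
  obtain ⟨l, -, hl⟩ := S.reflections_generate_dim
  have h1 := hom_iso_fold hV hW A hv l
  rw [← hl] at h1
  have e : (fun x => S (A (sfold v x))) = fun x => B (sfold v x) := by
    funext x
    rw [hS]
  rw [e] at h1
  exact h1.symm.trans (hom_fold_path hV B hv hv')

/-! ### The trivial foldings -/

lemma hom_rf_lin (hW : Pair W) (A : V →ₗᵢ[ℝ] W) {u ν : W} (hu : ‖u‖ = 1) (hν : ‖ν‖ = 1)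
    (hA : ∀ x, ⟪A x, ν⟫ = 0) : Hom QT (fun x => rf u (A x)) A := by
  obtain ⟨γ, hγ, h0, h1, hn⟩ := unit_path hW hu hν
  refine ⟨fun t x => rf (γ t) (A x), by dsimp only; rw [h0], ?_, ?_, ?_⟩
  · funext x
    dsimp only
    rw [h1, rf, hA]
    simp
  · intro t _
    exact ⟨(rf_expn (hn t)).comp (lin_expn A), (rf_cover (hn t)).comp (lin_cover A),
      fun x y => by rw [rf_inner (hn t), A.inner_map_map]⟩
  · intro x
    apply Continuous.continuousOn
    unfold rf
    fun_prop

lemma Hom.refl_lin (A : V →ₗᵢ[ℝ] W) : Hom QT (A : V → W) A :=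
  ⟨fun _ => A, rfl, rfl, fun _ _ => ⟨lin_expn A, lin_cover A, A.inner_map_map⟩,
    fun _ => continuousOn_const⟩

lemma hom_triv [FiniteDimensional ℝ W] (hW : Pair W)
    (hperp : ∀ A : V →ₗᵢ[ℝ] W, ∃ ν : W, ‖ν‖ = 1 ∧ ∀ x, ⟪A x, ν⟫ = 0) (A B : V →ₗᵢ[ℝ] W) :
    Hom QT (A : V → W) B := by
  obtain ⟨S, hS⟩ := exists_ext A B
  obtain ⟨l, -, hl⟩ := S.reflections_generate_dim
  have key : ∀ l : List W, Hom QT (fun x => (l.map fun v => (ℝ ∙ v)ᗮ.reflection).prod (A x))
      (A : V → W) := by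
    intro l
    induction l with
    | nil => exact Hom.refl_lin A
    | cons w l ih =>
      refine Hom.trans ?_ ih
      simp only [List.map_cons, List.prod_cons]
      have e : ∀ x : V, ((ℝ ∙ w)ᗮ.reflection * (l.map fun v => (ℝ ∙ v)ᗮ.reflection).prod)
          (A x) = (ℝ ∙ w)ᗮ.reflection
            (((l.map fun v => (ℝ ∙ v)ᗮ.reflection).prod.toLinearIsometry.comp A) x) :=
        fun x => rfl
      simp only [e]
      rcases refl_cases w with h | ⟨u, hu, h⟩
      · simp only [h]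
        exact Hom.refl_lin _
      · simp only [h]
        obtain ⟨ν, hν, hνA⟩ :=
          hperp ((l.map fun v => (ℝ ∙ v)ᗮ.reflection).prod.toLinearIsometry.comp A)
        exact hom_rf_lin hW _ hu hν hνA
  have h1 := key l
  rw [← hl] at h1
  have e : (fun x => S (A x)) = (B : V → W) := by
    funext x
    rw [hS]
  rw [e] at h1
  exact h1.symm

lemma hom_rf_rf (hW : Pair W) {u u' : W} (hu : ‖u‖ = 1) (hu' : ‖u'‖ = 1) (A : V →ₗᵢ[ℝ] W) :
    Hom QT (fun x => rf u (A x)) (fun x => rf u' (A x)) := by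
  obtain ⟨γ, hγ, h0, h1, hn⟩ := unit_path hW hu hu'
  refine ⟨fun t x => rf (γ t) (A x), by dsimp only; rw [h0], by dsimp only; rw [h1], ?_, ?_⟩
  · intro t _
    exact ⟨(rf_expn (hn t)).comp (lin_expn A), (rf_cover (hn t)).comp (lin_cover A),
      fun x y => by rw [rf_inner (hn t), A.inner_map_map]⟩
  · intro x
    apply Continuous.continuousOn
    unfold rf
    fun_prop

lemma Hom.left {F G : V → W} (h : Hom QT F G) {u : W} (hu : ‖u‖ = 1) :
    Hom QT (fun x => rf u (F x)) (fun x => rf u (G x)) := by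
  obtain ⟨K, h0, h1, h2, h3⟩ := h
  refine ⟨fun t x => rf u (K t x), by dsimp only; rw [h0], by dsimp only; rw [h1], ?_, ?_⟩
  · intro t ht
    obtain ⟨k1, k2, k3⟩ := h2 t ht
    exact ⟨(rf_expn hu).comp k1, (rf_cover hu).comp k2, fun x y => by rw [rf_inner hu, k3]⟩
  · intro x
    have := h3 x
    unfold rf
    fun_prop

/-- In codimension zero there are at most two classes of trivial foldings. -/
lemma hom_two [FiniteDimensional ℝ W] (hW : Pair W) {e : W} (he : ‖e‖ = 1) (S : W ≃ₗᵢ[ℝ] W) :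
    Hom QT (S : W → W) id ∨ Hom QT (S : W → W) (rf e) := by
  obtain ⟨l, -, hl⟩ := S.reflections_generate_dim
  have key : ∀ l : List W,
      Hom QT (fun x : W => (l.map fun v => (ℝ ∙ v)ᗮ.reflection).prod x) id ∨
      Hom QT (fun x : W => (l.map fun v => (ℝ ∙ v)ᗮ.reflection).prod x) (rf e) := by
    intro l
    induction l with
    | nil => exact Or.inl (Hom.refl_lin LinearIsometry.id)
    | cons w l ih =>
      simp only [List.map_cons, List.prod_cons]
      have e1 : ∀ x : W, ((ℝ ∙ w)ᗮ.reflection * (l.map fun v => (ℝ ∙ v)ᗮ.reflection).prod)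
          x = (ℝ ∙ w)ᗮ.reflection ((l.map fun v => (ℝ ∙ v)ᗮ.reflection).prod x) :=
        fun x => rfl
      simp only [e1]
      rcases refl_cases w with h | ⟨u, hu, h⟩
      · simp only [h]
        exact ih
      · simp only [h]
        rcases ih with ih | ih
        · right
          have h1 := ih.left hu
          have h2 := hom_rf_rf hW hu he (LinearIsometry.id (E := W) (R := ℝ))
          exact h1.trans h2
        · left
          have h1 := ih.left hu
          let R : W →ₗᵢ[ℝ] W := (ℝ ∙ e)ᗮ.reflection.toLinearIsometry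
          have hR : ∀ x, R x = rf e x := by
            intro x
            change (ℝ ∙ e)ᗮ.reflection x = rf e x
            rw [Submodule.reflection_orthogonal_apply, Submodule.reflection_singleton_apply, rf,
              ← Nat.cast_smul_eq_nsmul ℝ, smul_smul, real_inner_comm x e, he, neg_sub]
            congr 2
            simp
          have h2 := hom_rf_rf hW hu he R
          simp only [hR] at h2
          have h3 := h1.trans h2
          have e2 : (fun x => rf e (rf e x)) = (id : W → W) := by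
            funext x
            exact rf_rf he x
          rw [e2] at h3
          exact h3
  rw [hl]
  exact key l

end Pool.Agent.Y580.RF
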