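import Mathlib
import Pool.Agent.Y580.RF.F5

/-!
Every non-trivial homogeneous folding is homotopic, through non-trivial ones, to a simple fold
followed by a linear isometric embedding.
-/

open scoped RealInnerProductSpace
open Set Filter Topology
open Pool.Agent.Helper697 (sfold arc arc_norm arc_inner arc_continuous arc_zero arc_ne
  exists_perp polar)

namespace Pool.Agent.Y580.RF

variable {V W : Type*} [NormedAddCommGroup V] [InnerProductSpace ℝ V]
  [NormedAddCommGroup W] [InnerProductSpace ℝ W]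

/-- A piece with interior: the map agrees with a linear isometric embedding near some unit
vector. -/
lemma exists_piece [FiniteDimensional ℝ V] {F : V → W} (hF : Expn F) (hcov : FinCover F univ)
    (hV : Pair V) : ∃ (T : V →ₗᵢ[ℝ] W) (a : V) (r : ℝ), ‖a‖ = 1 ∧ 0 < r ∧
      ∀ y, ‖y + a‖ < r → F y = T y := by
  haveI : CompleteSpace V := FiniteDimensional.complete ℝ V
  obtain ⟨C, hC1, hC2, hC3⟩ := hcov.cones hF
  have hint : ∃ M ∈ C, (interior M).Nonempty := by
    have : Countable C := hC1.countable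
    have h1 : (⋃ M : C, (M : Set V)) = univ := by
      rw [← sUnion_eq_iUnion]
      exact eq_univ_of_univ_subset hC3
    obtain ⟨M, hM⟩ := nonempty_interior_of_iUnion_of_closed
      (fun M : C => (hC2 M M.2).closed) h1
    exact ⟨M, M.2, hM⟩
  obtain ⟨M, hMC, hMint⟩ := hint
  have hM := hC2 M hMC
  obtain ⟨z, hz, hz0⟩ : ∃ z ∈ interior M, z ≠ 0 := by
    obtain ⟨z, hz⟩ := hMint
    by_cases h0 : z = 0
    · subst h0
      obtain ⟨r, hr, hball⟩ := Metric.isOpen_iff.mp isOpen_interior 0 hz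
      obtain ⟨p, v, hp, -, -⟩ := hV
      refine ⟨(r / 2) • p, hball ?_, ?_⟩
      · rw [mem_ball_zero_iff, norm_smul, hp, mul_one, Real.norm_eq_abs,
          abs_of_pos (by positivity)]
        linarith
      · rw [← norm_ne_zero_iff, norm_smul, hp, mul_one, Real.norm_eq_abs,
          abs_of_pos (by positivity)]
        positivity
    · exact ⟨z, hz, h0⟩
  obtain ⟨r, hr, hball⟩ := Metric.isOpen_iff.mp isOpen_interior z hz
  have hball' : Metric.ball z r ⊆ M := hball.trans interior_subset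
  have hzn : 0 < ‖z‖ := norm_pos_iff.mpr hz0
  obtain ⟨a, had⟩ : ∃ a : V, a = -(‖z‖⁻¹ • z) := ⟨_, rfl⟩
  have ha : ‖a‖ = 1 := by
    rw [had, norm_neg, norm_smul, norm_inv, norm_norm, inv_mul_cancel₀ hzn.ne']
  set r' := r / ‖z‖ with hr'
  have hr'0 : 0 < r' := by positivity
  have hballa : ∀ y, ‖y + a‖ < r' → y ∈ M := by
    intro y hy
    have h1 : ‖z‖ • y ∈ M := by
      apply hball'
      rw [mem_ball_iff_norm]
      have h2 : ‖z‖ • y - z = ‖z‖ • (y + a) := by
        rw [had, smul_add, smul_neg, smul_smul, mul_inv_cancel₀ hzn.ne', one_smul]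
        abel
      rw [h2, norm_smul, norm_norm]
      rw [hr', lt_div_iff₀ hzn] at hy
      linarith
    have h3 := hM.comb _ h1 _ h1 ‖z‖⁻¹ 0 (by positivity) le_rfl
    rwa [smul_smul, inv_mul_cancel₀ hzn.ne', one_smul, zero_smul, add_zero] at h3
  have haM : -a ∈ M := hballa _ (by simpa using hr'0)
  obtain ⟨T, hT⟩ : ∃ T : V →ₗᵢ[ℝ] W, ∀ x ∈ M, F x = T x := by
    set δ := r' / 2 with hδ
    have hδ0 : 0 < δ := by positivity
    let b := stdOrthonormalBasis ℝ V
    have hbM : ∀ i, -a + δ • b i ∈ M := by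
      intro i
      apply hballa
      rw [add_comm (-a), add_assoc, neg_add_cancel, add_zero, norm_smul, b.orthonormal.1 i,
        mul_one, Real.norm_eq_abs, abs_of_pos hδ0]
      linarith
    let c : Fin (Module.finrank ℝ V) → W := fun i => δ⁻¹ • (F (-a + δ • b i) - F (-a))
    have hc1 : ∀ x ∈ M, ∀ i, ⟪F x, c i⟫ = ⟪x, b i⟫ := by
      intro x hx i
      simp only [c]
      rw [real_inner_smul_right, inner_sub_right, hM.iso x hx _ (hbM i), hM.iso x hx _ haM,
        inner_add_right, real_inner_smul_right]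
      field_simp
      ring
    have hc2 : ∀ i j, ⟪c i, c j⟫ = ⟪b i, b j⟫ := by
      intro i j
      have h1 := hc1 _ (hbM i) j
      have h2 := hc1 _ haM j
      have h3 : ⟪c i, c j⟫ = δ⁻¹ * (⟪F (-a + δ • b i), c j⟫ - ⟪F (-a), c j⟫) := by
        conv_lhs => rw [show c i = δ⁻¹ • (F (-a + δ • b i) - F (-a)) from rfl]
        rw [real_inner_smul_left, inner_sub_left]
      rw [h3, h1, h2, inner_add_left, real_inner_smul_left]
      field_simp
      ring
    have hc : Orthonormal ℝ c := by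
      rw [orthonormal_iff_ite]
      intro i j
      rw [hc2]
      exact (orthonormal_iff_ite.mp b.orthonormal) i j
    let L : V →ₗ[ℝ] W := b.toBasis.constr ℝ c
    have hLb : ∀ i, L (b i) = c i := by
      intro i
      have := b.toBasis.constr_basis ℝ c i
      simpa [L] using this
    have hvb : Orthonormal ℝ b.toBasis := by simpa using b.orthonormal
    have hLc : Orthonormal ℝ (L ∘ b.toBasis) := by
      have : (L ∘ b.toBasis) = c := by
        funext i
        simp only [Function.comp_apply, OrthonormalBasis.coe_toBasis]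
        exact hLb i
      rw [this]
      exact hc
    refine ⟨L.isometryOfOrthonormal hvb hLc, ?_⟩
    intro x hx
    have hTx : (L.isometryOfOrthonormal hvb hLc) x = L x := rfl
    have hnorm : ‖L x‖ = ‖x‖ := by rw [← hTx]; exact LinearIsometry.norm_map _ x
    rw [hTx]
    have hLx : L x = ∑ i, ⟪b i, x⟫ • c i := by
      conv_lhs => rw [← b.sum_repr' x]
      rw [map_sum]
      refine Finset.sum_congr rfl fun i _ => ?_
      rw [map_smul, hLb]
    have hin : ⟪F x, L x⟫ = ‖x‖ ^ 2 := by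
      rw [hLx, inner_sum, ← real_inner_self_eq_norm_sq]
      have h5 : ⟪x, x⟫ = ∑ i, ⟪b i, x⟫ * ⟪x, b i⟫ := by
        conv_lhs => rw [← b.sum_repr' x]
        rw [sum_inner]
        have h6 : ∑ i, ⟪b i, x⟫ • b i = x := b.sum_repr' x
        rw [h6]
        refine Finset.sum_congr rfl fun i _ => ?_
        rw [real_inner_smul_left, real_inner_comm x (b i)]
      rw [h5]
      refine Finset.sum_congr rfl fun i _ => ?_
      rw [real_inner_smul_right, hc1 x hx i]
    rw [← sub_eq_zero, ← norm_eq_zero, ← sq_eq_zero_iff, @norm_sub_sq_real, hin, hF.2, hnorm]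
    ring
  exact ⟨T, a, r', ha, hr'0, fun y hy => hT y (hballa y hy)⟩

/-- A folding which agrees with a linear isometric embedding near `-a` and at `a` is trivial. -/
lemma rigid {F : V → W} (hF : Expn F) {T : V →ₗᵢ[ℝ] W} {a : V} (ha : ‖a‖ = 1) {r : ℝ}
    (hr : 0 < r) (hid : ∀ y, ‖y + a‖ < r → F y = T y) (hTa : F a = T a) (x : V) :
    F x = T x := by
  have hFa : F (-a) = -(T a) := by
    have := hid (-a) (by simpa using hr)
    rw [this, T.map_neg]
  have h1 := hF.1 x a
  have h2 := hF.1 x (-a)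
  rw [hTa] at h1
  rw [hFa, inner_neg_right, inner_neg_right] at h2
  have h3 : ⟪F x, T a⟫ = ⟪x, a⟫ := by linarith
  set s := (‖x‖ + 1) / r with hs
  have hs0 : 0 < s := by positivity
  have h4 : ‖x‖ < r * s := by rw [hs]; field_simp; linarith
  have h5 := fix_far hF hid hs0 h4
  have h6 := hF.1 x (x - s • a)
  rw [h5, T.map_sub, T.map_smul, inner_sub_right, inner_sub_right, real_inner_smul_right,
    real_inner_smul_right, h3, real_inner_self_eq_norm_sq] at h6
  rw [← sub_eq_zero, ← norm_eq_zero, ← sq_eq_zero_iff]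
  apply le_antisymm _ (sq_nonneg _)
  rw [@norm_sub_sq_real, hF.2, T.norm_map]
  linarith

/-- The homotopy. -/
noncomputable def Kk (F : V → W) (T : V →ₗᵢ[ℝ] W) (a : V) (w : W) (τ : ℝ) (x : V) : W :=
  if τ ≤ 0 then sfold w (T x) else Bm F a (arc (T a) w τ) x

section

variable {F : V → W} (hF : Expn F) {T : V →ₗᵢ[ℝ] W} {a : V} {w : W} (ha : ‖a‖ = 1)
  (hw : ‖w‖ = 1) (haw : ⟪T a, w⟫ = 0) {r : ℝ} (hr : 0 < r)
  (hid : ∀ y, ‖y + a‖ < r → F y = T y)

include hF ha hw haw hr hid

lemma Kk_expn {τ : ℝ} (hτ : τ ≤ Real.pi) : Expn (Kk F T a w τ) := by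
  have hFa : F (-a) = -(T a) := by
    have := hid (-a) (by simpa using hr)
    rw [this, T.map_neg]
  have hTa : ‖T a‖ = 1 := by rw [T.norm_map, ha]
  by_cases h : τ ≤ 0
  · have : Kk F T a w τ = fun x => sfold w (T x) := by ext1 x; simp [Kk, h]
    rw [this]
    exact (fold_expn hw).comp (lin_expn T)
  · have : Kk F T a w τ = Bm F a (arc (T a) w τ) := by ext1 x; simp [Kk, h]
    rw [this]
    exact Bm_expn hF ha (arc_norm hTa hw haw τ) hFa (arc_ne hTa haw (not_le.mp h) hτ)

lemma Kk_cover (hcov : FinCover F univ) {τ : ℝ} (hτ : τ ≤ Real.pi) :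
    FinCover (Kk F T a w τ) univ := by
  have hFa : F (-a) = -(T a) := by
    have := hid (-a) (by simpa using hr)
    rw [this, T.map_neg]
  have hTa : ‖T a‖ = 1 := by rw [T.norm_map, ha]
  by_cases h : τ ≤ 0
  · have : Kk F T a w τ = fun x => sfold w (T x) := by ext1 x; simp [Kk, h]
    rw [this]
    exact (fold_cover hw).comp (lin_cover T)
  · have : Kk F T a w τ = Bm F a (arc (T a) w τ) := by ext1 x; simp [Kk, h]
    rw [this]
    exact Bm_cover hF hcov ha (arc_norm hTa hw haw τ) hFa (arc_ne hTa haw (not_le.mp h) hτ)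

lemma Kk_cont (x : V) : ContinuousOn (fun τ => Kk F T a w τ x) (Icc 0 Real.pi) := by
  have hFa : F (-a) = -(T a) := by
    have := hid (-a) (by simpa using hr)
    rw [this, T.map_neg]
  intro τ hτ
  rcases hτ.1.eq_or_lt with h0 | h0
  · subst h0
    have h1 : ContinuousWithinAt (fun τ => Kk F T a w τ x) (Ioi 0) 0 := by
      have h2 := limit_all hF ha hw haw hr hid x
      have h3 : Kk F T a w 0 x = sfold w (T x) := by simp [Kk]
      change Tendsto (fun τ => Kk F T a w τ x) (𝓝[>] 0) (𝓝 (Kk F T a w 0 x))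
      rw [h3]
      refine h2.congr' ?_
      filter_upwards [self_mem_nhdsWithin] with τ hτ
      rw [Kk, if_neg (not_le.mpr hτ)]
    rw [continuousWithinAt_Ioi_iff_Ici] at h1
    exact h1.mono Icc_subset_Ici_self
  · have h1 := cont_pos hF ha hw haw hFa x h0
    have h3 : Kk F T a w τ x = Bm F a (arc (T a) w τ) x := by rw [Kk, if_neg (not_le.mpr h0)]
    change Tendsto (fun τ => Kk F T a w τ x) (𝓝[Icc 0 Real.pi] τ) (𝓝 (Kk F T a w τ x))
    rw [h3]
    refine (h1.mono_left (nhdsWithin_mono _ (fun t ht => ht.2))).congr' ?_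
    filter_upwards [mem_nhdsWithin_of_mem_nhds (Ioi_mem_nhds h0)] with t ht
    rw [Kk, if_neg (not_le.mpr ht)]

/-- The construction gives non-trivial maps for `τ > 0`. -/
lemma Kk_qn {τ : ℝ} (h0 : 0 < τ) (hτ : τ ≤ Real.pi) : QN (Kk F T a w τ) := by
  have hFa : F (-a) = -(T a) := by
    have := hid (-a) (by simpa using hr)
    rw [this, T.map_neg]
  have hTa : ‖T a‖ = 1 := by rw [T.norm_map, ha]
  have haa : ⟪a, a⟫ = 1 := by rw [real_inner_self_eq_norm_sq, ha]; norm_num
  have hb := arc_norm hTa hw haw τ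
  refine ⟨a, -a, ?_⟩
  rw [Kk, Kk, if_neg (not_le.mpr h0), if_neg (not_le.mpr h0), Bm_a hF ha hb,
    Bm_neg hF ha hb hFa, inner_neg_right, inner_neg_right, haa,
    real_inner_comm (T a), arc_inner hTa haw]
  have h1 : Real.cos τ < Real.cos 0 := Real.cos_lt_cos_of_nonneg_of_le_pi le_rfl hτ h0
  rw [Real.cos_zero] at h1
  intro h
  linarith

lemma phase (hcov : FinCover F univ) {Q : (V → W) → Prop} {τ₀ τ₁ : ℝ} (h₀ : 0 ≤ τ₀)
    (h₀' : τ₀ ≤ Real.pi) (h₁ : 0 ≤ τ₁) (h₁' : τ₁ ≤ Real.pi)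
    (hQ : ∀ t ∈ Icc (0:ℝ) 1, Q (Kk F T a w (τ₀ + t * (τ₁ - τ₀)))) :
    Hom Q (Kk F T a w τ₀) (Kk F T a w τ₁) := by
  have hmem : ∀ t ∈ Icc (0:ℝ) 1, τ₀ + t * (τ₁ - τ₀) ∈ Icc 0 Real.pi := by
    intro t ht
    constructor
    · nlinarith [ht.1, ht.2]
    · nlinarith [ht.1, ht.2]
  refine ⟨fun t => Kk F T a w (τ₀ + t * (τ₁ - τ₀)), ?_, ?_, ?_, ?_⟩
  · simp
  · simp
  · intro t ht
    exact ⟨Kk_expn hF ha hw haw hr hid (hmem t ht).2,
      Kk_cover hF ha hw haw hr hid hcov (hmem t ht).2, hQ t ht⟩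
  · intro x
    exact (Kk_cont hF ha hw haw hr hid x).comp (f := fun t : ℝ => τ₀ + t * (τ₁ - τ₀))
      (by fun_prop) hmem

end

/-- Every non-trivial folding is homotopic through non-trivial foldings to a simple fold followed
by a linear isometric embedding. -/
lemma to_std [FiniteDimensional ℝ V] {F : V → W} (hF : Expn F) (hcov : FinCover F univ)
    (hV : Pair V) (hW : Pair W) (hn : QN F) : ∃ (T : V →ₗᵢ[ℝ] W) (v : V), ‖v‖ = 1 ∧
      Hom QN F (fun x => T (sfold v x)) := by
  obtain ⟨T, a, r, ha, hr, hid⟩ := exists_piece hF hcov hV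
  have hTa : ‖T a‖ = 1 := by rw [T.norm_map, ha]
  have hne : F a ≠ T a := by
    intro h
    obtain ⟨x, y, hxy⟩ := hn
    apply hxy
    rw [rigid hF ha hr hid h x, rigid hF ha hr hid h y, T.inner_map_map]
  obtain ⟨p, q, hp, hq, hpq⟩ := hW
  obtain ⟨w, hw, haw, θ, hθ0, hθπ, hFaw⟩ := polar hp hq hpq hTa (by rw [hF.2, ha] : ‖F a‖ = 1)
  have hθ : 0 < θ := by
    rcases hθ0.eq_or_lt with h | h
    · exfalso
      apply hne
      rw [hFaw, ← h]; simp
    · exact h
  have hFarc : F a = arc (T a) w θ := hFaw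
  -- first phase
  have s1 : Hom QN (Kk F T a w θ) (Kk F T a w Real.pi) := by
    refine phase hF ha hw haw hr hid hcov hθ0 hθπ Real.pi_pos.le le_rfl ?_
    intro t ht
    have h1 : 0 ≤ t * (Real.pi - θ) := mul_nonneg ht.1 (by linarith)
    have h2 : t * (Real.pi - θ) ≤ 1 * (Real.pi - θ) :=
      mul_le_mul_of_nonneg_right ht.2 (by linarith)
    exact Kk_qn hF ha hw haw hr hid (by linarith) (by linarith)
  have e1 : Kk F T a w θ = F := by
    funext x
    rw [Kk, if_neg (not_le.mpr hθ), ← hFarc, Bm_self hF ha]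
  rw [e1] at s1
  -- second phase
  obtain ⟨p', q', hp', hq', hpq'⟩ := hV
  obtain ⟨v, hv, hav⟩ := exists_perp hp' hq' hpq' ha
  have hTv : ‖T v‖ = 1 := by rw [T.norm_map, hv]
  have haw' : ⟪T a, T v⟫ = 0 := by rw [T.inner_map_map, hav]
  have s2 : Hom QN (Kk F T a (T v) Real.pi) (Kk F T a (T v) 0) := by
    refine phase hF ha hTv haw' hr hid hcov Real.pi_pos.le le_rfl le_rfl Real.pi_pos.le ?_
    intro t ht
    have h1 : Real.pi + t * (0 - Real.pi) = Real.pi * (1 - t) := by ring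
    rw [h1]
    rcases ht.2.eq_or_lt with h | h
    · have e : Kk F T a (T v) (Real.pi * (1 - t)) = fun x => T (sfold v x) := by
        funext x
        rw [Kk, if_pos (by rw [h]; simp), fold_lin]
      rw [e]
      exact qn_fold T hv
    · have h3 : 0 < Real.pi * (1 - t) := mul_pos Real.pi_pos (by linarith)
      have h4 : Real.pi * (1 - t) ≤ Real.pi := by nlinarith [Real.pi_pos, ht.1]
      exact Kk_qn hF ha hTv haw' hr hid h3 h4
  have e2 : Kk F T a (T v) Real.pi = Kk F T a w Real.pi := by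
    funext x
    rw [Kk, Kk, if_neg (not_le.mpr Real.pi_pos), if_neg (not_le.mpr Real.pi_pos)]
    congr 1
    simp [arc]
  have e3 : Kk F T a (T v) 0 = fun x => T (sfold v x) := by
    funext x
    rw [Kk, if_pos le_rfl, fold_lin]
  rw [e2, e3] at s2
  exact ⟨T, v, hv, s1.trans s2⟩

/-- In positive codimension a trivial folding is homotopic to a non-trivial one. -/
lemma triv_to_std [FiniteDimensional ℝ V] (hV : Pair V) (hW : Pair W) (T : V →ₗᵢ[ℝ] W) {ν : W}
    (hν : ‖ν‖ = 1) (hT : ∀ x, ⟪T x, ν⟫ = 0) :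
    ∃ (A : V →ₗᵢ[ℝ] W) (v : V), ‖v‖ = 1 ∧ Hom QA (T : V → W) (fun x => A (sfold v x)) := by
  obtain ⟨a, q, ha, hq, haq⟩ := id hV
  have hid : ∀ y, ‖y + a‖ < 1 → T y = T y := fun _ _ => rfl
  have s1 : Hom QA (Kk T T a ν 0) (Kk T T a ν Real.pi) :=
    phase (lin_expn T) ha hν (hT a) one_pos hid (lin_cover T) le_rfl Real.pi_pos.le
      Real.pi_pos.le le_rfl (fun _ _ => trivial)
  have e1 : Kk T T a ν 0 = T := by
    funext x
    rw [Kk, if_pos le_rfl, sfold, if_pos (hT x).ge]
  rw [e1] at s1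
  have hn := Kk_qn (lin_expn T) ha hν (hT a) one_pos hid Real.pi_pos le_rfl
  have hE := Kk_expn (lin_expn T) ha hν (hT a) one_pos hid (le_refl Real.pi)
  have hC := Kk_cover (lin_expn T) ha hν (hT a) one_pos hid (lin_cover T) (le_refl Real.pi)
  obtain ⟨A, v, hv, h⟩ := to_std hE hC hV hW hn
  exact ⟨A, v, hv, s1.trans (h.mono fun _ _ => trivial)⟩

/-- **Non-trivial foldings are homotopic through non-trivial foldings.** -/
theorem hom_nontriv [FiniteDimensional ℝ V] [FiniteDimensional ℝ W] (hV : Pair V) (hW : Pair W)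
    {F G : V → W} (hF : Expn F) (hFc : FinCover F univ) (hFn : QN F) (hG : Expn G)
    (hGc : FinCover G univ) (hGn : QN G) : Hom QN F G := by
  obtain ⟨A, v, hv, h1⟩ := to_std hF hFc hV hW hFn
  obtain ⟨B, v', hv', h2⟩ := to_std hG hGc hV hW hGn
  exact (h1.trans (hom_std hV hW A B hv hv')).trans h2.symm

/-- a trivial folding is linear -/
lemma triv_lin [FiniteDimensional ℝ V] (hV : Pair V) {F : V → W} (hF : Expn F) (hn : ¬ QN F) :
    ∃ T : V →ₗᵢ[ℝ] W, ∀ x, F x = T x := by
  have hiso : ∀ x y, ⟪F x, F y⟫ = ⟪x, y⟫ := by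
    intro x y
    by_contra h
    exact hn ⟨x, y, h⟩
  have hcov : FinCover F univ := FinCover.of_iso fun x _ y _ => hiso x y
  obtain ⟨T, a, r, ha, hr, hid⟩ := exists_piece hF hcov hV
  refine ⟨T, fun x => ?_⟩
  apply rigid hF ha hr hid
  have h1 : F (-a) = T (-a) := hid (-a) (by simpa using hr)
  have h2 := hiso a (-a)
  rw [← sub_eq_zero, ← norm_eq_zero, ← sq_eq_zero_iff, @norm_sub_sq_real, hF.2, T.norm_map]
  rw [h1, T.map_neg, inner_neg_right, inner_neg_right, real_inner_self_eq_norm_sq] at h2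
  linarith

/-- **In positive codimension all foldings are homotopic through foldings.** -/
theorem hom_codim [FiniteDimensional ℝ V] [FiniteDimensional ℝ W] (hV : Pair V) (hW : Pair W)
    (hperp : ∀ A : V →ₗᵢ[ℝ] W, ∃ ν : W, ‖ν‖ = 1 ∧ ∀ x, ⟪A x, ν⟫ = 0)
    {F G : V → W} (hF : Expn F) (hFc : FinCover F univ) (hG : Expn G)
    (hGc : FinCover G univ) : Hom QA F G := by
  have key : ∀ {F : V → W}, Expn F → FinCover F univ → ∃ (A : V →ₗᵢ[ℝ] W) (v : V), ‖v‖ = 1 ∧
      Hom QA F (fun x => A (sfold v x)) := by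
    intro F hF hFc
    by_cases hn : QN F
    · obtain ⟨A, v, hv, h⟩ := to_std hF hFc hV hW hn
      exact ⟨A, v, hv, h.mono fun _ _ => trivial⟩
    · obtain ⟨T, hT⟩ := triv_lin hV hF hn
      have e : F = T := funext hT
      rw [e]
      obtain ⟨ν, hν, hνT⟩ := hperp T
      exact triv_to_std hV hW T hν hνT
  obtain ⟨A, v, hv, h1⟩ := key hF hFc
  obtain ⟨B, v', hv', h2⟩ := key hG hGc
  exact (h1.trans ((hom_std hV hW A B hv hv').mono fun _ _ => trivial)).trans h2.symm

end Pool.Agent.Y580.RF
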